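import Mathlib

set_option autoImplicit false

namespace Pool.Agent.Results.MP_9f54b8_an.AreaFails

open Filter Topology Complex

/-- The class `Σ`: analytic and univalent in `|z| > 1` with expansion `z + ∑ b_n z^{-n}`. -/
def InSigma (f : ℂ → ℂ) : Prop :=
  DifferentiableOn ℂ f {z | 1 < ‖z‖} ∧ Set.InjOn f {z | 1 < ‖z‖} ∧
    ∃ b : ℕ → ℂ, ∀ z : ℂ, 1 < ‖z‖ → HasSum (fun n => b n / z ^ n) (f z - z)

section Aux

noncomputable def c : ℂ := (1 + 2 * I) / 5

theorem c_re : c.re = 1 / 5 := by simp [c]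
theorem c_im : c.im = 2 / 5 := by simp [c]

theorem norm_c : ‖c‖ < 1 := by
  have : ‖c‖ ^ 2 < 1 ^ 2 := by
    rw [Complex.sq_norm, Complex.normSq_apply, c_re, c_im]; norm_num
  exact lt_of_pow_lt_pow_left₀ 2 zero_le_one this

theorem ne_c {z : ℂ} (hz : 1 < ‖z‖) : z - c ≠ 0 := fun h => by
  rw [sub_eq_zero] at h
  have := norm_c
  rw [← h] at this
  linarith

noncomputable def f (z : ℂ) : ℂ := (z - 1) ^ 2 / (z - c)

theorem key {z w : ℂ} (hz : 1 < ‖z‖) (hw : 1 < ‖w‖) : (z - c) * (w - c) ≠ (1 - c) ^ 2 := by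
  intro h
  have h1 : w * (z - c) = c * z + 1 - 2 * c := by linear_combination h
  have h2 : normSq w * normSq (z - c) = normSq (c * z + 1 - 2 * c) := by rw [← map_mul, h1]
  have hz' : 1 < normSq z := by
    rw [← Complex.sq_norm]; nlinarith
  have hw' : 1 < normSq w := by
    rw [← Complex.sq_norm]; nlinarith
  have h3 : 0 < normSq (z - c) := normSq_pos.2 (ne_c hz)
  have h4 : normSq (z - c) < normSq (c * z + 1 - 2 * c) := by nlinarith
  simp only [normSq_apply, sub_re, sub_im, add_re, add_im, mul_re, mul_im, c_re, c_im, one_re,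
    one_im, re_ofNat, im_ofNat] at h4 hz'
  nlinarith

theorem f_sigma : InSigma f := by
  refine ⟨fun z hz => ?_, fun z hz w hw h => ?_, ⟨fun n => Nat.casesOn n (c - 2)
    fun k => (1 - c) ^ 2 * c ^ k, fun z hz => ?_⟩⟩
  · refine DifferentiableAt.differentiableWithinAt ?_
    unfold f
    exact DifferentiableAt.div (by fun_prop) (by fun_prop) (ne_c hz)
  · by_contra hne
    apply key hz hw
    unfold f at h
    rw [div_eq_div_iff (ne_c hz) (ne_c hw)] at h
    have : (z - w) * ((z - c) * (w - c) - (1 - c) ^ 2) = 0 := by linear_combination h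
    rcases mul_eq_zero.1 this with h1 | h1
    · exact absurd (sub_eq_zero.1 h1) hne
    · exact sub_eq_zero.1 h1
  · have hz0 : z ≠ 0 := by rintro rfl; norm_num at hz
    have h1 : ‖c / z‖ < 1 := by
      rw [norm_div, div_lt_one (by linarith)]; exact norm_c.trans hz
    have h2 := (hasSum_geometric_of_norm_lt_one h1).mul_left ((1 - c) ^ 2 / z)
    rw [← hasSum_nat_add_iff' 1]
    convert! h2 using 1
    · funext n
      simp only [div_pow, pow_succ]
      field_simp
    · have h3 := ne_c hz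
      simp only [Finset.range_one, Finset.sum_singleton, pow_zero, div_one, f]
      change _ - z - (c - 2) = _
      field_simp
      ring

theorem sigma_neg {g : ℂ → ℂ} (hg : InSigma g) : InSigma fun z => - g (-z) := by
  obtain ⟨h1, h2, b, h3⟩ := hg
  have hm : ∀ z : ℂ, z ∈ {z : ℂ | 1 < ‖z‖} → -z ∈ {z : ℂ | 1 < ‖z‖} := fun z hz => by simpa using hz
  refine ⟨(h1.comp (differentiable_neg.differentiableOn) hm).neg, fun z hz w hw h => ?_,
    ⟨fun n => - (b n / (-1) ^ n), fun z hz => ?_⟩⟩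
  · exact neg_injective (h2 (hm z hz) (hm w hw) (neg_injective h))
  · convert! (h3 (-z) (hm z hz)).neg using 1
    · funext n
      rw [neg_pow z, neg_div, div_div]
    · ring

noncomputable def Φ (u : ℂ) : ℂ :=
  ((1 - u) ^ 2 / (1 - c * u)) ^ ((1 / 2 : ℝ) : ℂ) * ((1 + u) ^ 2 / (1 + c * u)) ^ ((1 / 2 : ℝ) : ℂ)

theorem Φ_an : AnalyticAt ℂ Φ 0 := by
  unfold Φ
  refine AnalyticAt.mul (AnalyticAt.cpow ?_ analyticAt_const ?_)
    (AnalyticAt.cpow ?_ analyticAt_const ?_)
  · exact AnalyticAt.div (by fun_prop) (by fun_prop) (by simp)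
  · simp
  · exact AnalyticAt.div (by fun_prop) (by fun_prop) (by simp)
  · simp

theorem Φ_zero : Φ 0 = 1 := by simp [Φ]

theorem Φ_sq : ∀ᶠ u in 𝓝 (0 : ℂ), Φ u ^ 2 * (1 - c ^ 2 * u ^ 2) = (1 - u ^ 2) ^ 2 := by
  have h1 : ∀ᶠ u in 𝓝 (0 : ℂ), 1 - c * u ≠ 0 :=
    ContinuousAt.eventually_ne (by fun_prop) (by simp)
  have h2 : ∀ᶠ u in 𝓝 (0 : ℂ), 1 + c * u ≠ 0 :=
    ContinuousAt.eventually_ne (by fun_prop) (by simp)
  filter_upwards [h1, h2] with u h1 h2
  have hs : ∀ w : ℂ, (w ^ ((1 / 2 : ℝ) : ℂ)) ^ 2 = w := by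
    intro w
    have : ((1 / 2 : ℝ) : ℂ) = ((2 : ℕ) : ℂ)⁻¹ := by push_cast; ring
    rw [this]
    exact cpow_nat_inv_pow w (by norm_num)
  have h3 : 1 - c ^ 2 * u ^ 2 = (1 - c * u) * (1 + c * u) := by ring
  rw [Φ, mul_pow, hs, hs, h3, div_mul_div_comm, div_mul_cancel₀ _ (mul_ne_zero h1 h2)]
  ring

theorem Φ_two : iteratedDeriv 2 Φ 0 = c ^ 2 - 2 := by
  have ha := Φ_an
  have ha1 := ha.deriv
  have e1 : ∀ᶠ u in 𝓝 (0 : ℂ), 2 * Φ u * deriv Φ u * (1 - c ^ 2 * u ^ 2) -
      Φ u ^ 2 * (c ^ 2 * (2 * u)) = - 4 * u * (1 - u ^ 2) := by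
    filter_upwards [Φ_sq.eventually_nhds, ha.eventually_analyticAt] with u hu hau
    have h1 := hau.differentiableAt.hasDerivAt
    have h2 : HasDerivAt (fun u => Φ u ^ 2 * (1 - c ^ 2 * u ^ 2))
        (2 * Φ u * deriv Φ u * (1 - c ^ 2 * u ^ 2) - Φ u ^ 2 * (c ^ 2 * (2 * u))) u := by
      convert! (h1.pow 2).mul (((hasDerivAt_id u).pow 2).const_mul (c ^ 2) |>.const_sub 1) using 1
      simp; ring
    have h3 : HasDerivAt (fun u : ℂ => (1 - u ^ 2) ^ 2) (- 4 * u * (1 - u ^ 2)) u := by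
      convert! (((hasDerivAt_id u).pow 2).const_sub 1).pow 2 using 1
      simp; ring
    exact h2.unique (h3.congr_of_eventuallyEq hu)
  have d1 : deriv Φ 0 = 0 := by
    have := e1.self_of_nhds
    simpa [Φ_zero] using this
  have h1 := ha.differentiableAt.hasDerivAt
  have h1' := ha1.differentiableAt.hasDerivAt
  have h2 : HasDerivAt (fun u => 2 * Φ u * deriv Φ u * (1 - c ^ 2 * u ^ 2) -
      Φ u ^ 2 * (c ^ 2 * (2 * u))) (2 * deriv (deriv Φ) 0 - 2 * c ^ 2) 0 := by
    convert! (((h1.const_mul 2).mul h1').mul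
      (((hasDerivAt_id (0 : ℂ)).pow 2).const_mul (c ^ 2) |>.const_sub 1)).sub
      ((h1.pow 2).mul (((hasDerivAt_id (0 : ℂ)).const_mul 2).const_mul (c ^ 2))) using 1
    simp [Φ_zero, d1]; ring
  have h3 : HasDerivAt (fun u : ℂ => - 4 * u * (1 - u ^ 2)) (-4) 0 := by
    convert! ((hasDerivAt_id (0 : ℂ)).const_mul (-4)).mul
      (((hasDerivAt_id (0 : ℂ)).pow 2).const_sub 1) using 1
    simp
  have h4 := h2.unique (h3.congr_of_eventuallyEq e1)
  rw [iteratedDeriv_succ, iteratedDeriv_one]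
  linear_combination h4 / 2

end Aux

theorem result :
    ∃ (α : ℝ) (f g : ℂ → ℂ), 0 < α ∧ α < 1 ∧ InSigma f ∧ InSigma g ∧
      (∀ z : ℂ, 1 < ‖z‖ → f z ≠ 0 ∧ g z ≠ 0) ∧
      ∃ (A : ℕ → ℂ) (R : ℝ), (∀ z : ℂ, R < ‖z‖ → HasSum (fun n => A n / z ^ n)
          (z * (f z / z) ^ ((1 - α : ℝ) : ℂ) * (g z / z) ^ (α : ℂ) - z)) ∧
        ∃ N : ℕ, 1 < ∑ n ∈ Finset.range N, (n : ℝ) * ‖A n‖ ^ 2 := by
  refine ⟨1 / 2, f, fun z => - f (-z), by norm_num, by norm_num, f_sigma, sigma_neg f_sigma,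
    fun z hz => ?_, ?_⟩
  · have h : ∀ w : ℂ, 1 < ‖w‖ → f w ≠ 0 := fun w hw =>
      div_ne_zero (pow_ne_zero _ fun h => by
        rw [sub_eq_zero.1 h] at hw; simp at hw) (ne_c hw)
    exact ⟨h z hz, neg_ne_zero.2 (h _ (by simpa using hz))⟩
  · have hp := Φ_an.hasFPowerSeriesAt
    rw [hasFPowerSeriesAt_iff] at hp
    obtain ⟨r, hr, hb⟩ := Metric.eventually_nhds_iff.1 hp
    refine ⟨fun n => iteratedDeriv (n + 1) Φ 0 / (n + 1).factorial, max 1 r⁻¹, fun z hz => ?_, 2, ?_⟩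
    · have hz1 : 1 < ‖z‖ := (le_max_left _ _).trans_lt hz
      have hz0 : z ≠ 0 := by rintro rfl; norm_num at hz1
      have h1 : dist z⁻¹ 0 < r := by
        rw [dist_zero_right, norm_inv]
        exact inv_lt_of_inv_lt₀ hr ((le_max_right _ _).trans_lt hz)
      have h2 := hb h1
      simp only [FormalMultilinearSeries.coeff_ofScalars, zero_add, smul_eq_mul] at h2
      have h3 := ((hasSum_nat_add_iff' 1).2 h2).mul_left z
      convert! h3 using 1
      · funext n
        rw [inv_pow, pow_succ]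
        field_simp
      · have e1 : f z / z = (1 - z⁻¹) ^ 2 / (1 - c * z⁻¹) := by
          have := ne_c hz1
          unfold f
          field_simp
        have e2 : - f (-z) / z = (1 + z⁻¹) ^ 2 / (1 + c * z⁻¹) := by
          have h4 : z + c ≠ 0 := fun h => ne_c (z := -z) (by simpa using hz1)
            (by linear_combination -h)
          have h5 : -z - c ≠ 0 := ne_c (by simpa using hz1)
          unfold f
          field_simp
          ring
        have e3 : (1 - 1 / 2 : ℝ) = 1 / 2 := by norm_num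
        simp only [e1, e2, e3, Finset.range_one, Finset.sum_singleton, pow_zero, iteratedDeriv_zero,
          Φ_zero, Φ]
        simp
        ring
    · simp only [Finset.sum_range_succ, Finset.range_zero, Finset.sum_empty]
      norm_num [Φ_two]
      have h : 2 ^ 2 < ‖c ^ 2 - 2‖ ^ 2 := by
        rw [Complex.sq_norm]
        simp only [normSq_apply, sub_re, sub_im, pow_two, mul_re, mul_im, c_re, c_im, re_ofNat,
          im_ofNat]
        norm_num
      have h2 := lt_of_pow_lt_pow_left₀ 2 (norm_nonneg _) h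
      rw [abs_of_nonneg (by positivity)]
      linarith

end Pool.Agent.Results.MP_9f54b8_an.AreaFails
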